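import Mathlib
import Pool.Agent.X277.ExtTools

/-!
# The invariant `Δ_B` of a block is not the maximum over simple modules

Over `k = F_3` the group algebra of `G = S_3 × C_3` is a single (nonsemisimple) block.
Every simple module `S` has `Ext¹(S,S) ≠ 0`, but the nonprojective permutation module
`M = k[G/S_3]` has `Ext¹(M,M) = 0`.
-/

namespace Pool.Agent.Results.MP_f9a7a1_al.DeltaNotMax

open CategoryTheory Abelian

/-- `φ_M = inf {r ≥ 1 : Ext^r_B(M,M) ≠ 0}`, with `inf ∅ = ∞`. -/
noncomputable def phi (B : Type) [Ring B] (M : Type) [AddCommGroup M] [Module B M] : ℕ∞ :=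
  ⨅ r : {r : ℕ // 1 ≤ r ∧ Nontrivial (Ext (ModuleCat.of B M) (ModuleCat.of B M) r)},
    ((r : ℕ) : ℕ∞)

/-- `B` is (isomorphic to) a block of the group algebra `kG`: a nonzero ring with only the
trivial central idempotents that is a direct factor of the `k`-algebra `kG`. -/
def IsBlock (k G B : Type) [Field k] [Group G] [Ring B] [Algebra k B] : Prop :=
  Nontrivial B ∧ (∀ e : B, e * e = e → (∀ b : B, e * b = b * e) → e = 0 ∨ e = 1) ∧
    ∃ (C : Type) (_ : Ring C) (_ : Algebra k C), Nonempty (MonoidAlgebra k G ≃ₐ[k] B × C)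

/-- The field with three elements. -/
abbrev k : Type := ZMod 3
/-- The symmetric group on three letters. -/
abbrev H : Type := Equiv.Perm (Fin 3)
/-- The cyclic group of order three. -/
abbrev C : Type := Multiplicative (ZMod 3)
/-- `S_3 × C_3`. -/
abbrev G : Type := H × C
/-- The group algebra. -/
abbrev A : Type := MonoidAlgebra k G

/-- The group element as an element of the group algebra. -/
noncomputable def o (g : G) : A := MonoidAlgebra.of k G g

lemma o_mul (g h : G) : o (g * h) = o g * o h := map_mul _ _ _
lemma o_one : o 1 = 1 := map_one _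

lemma single_eq (g : G) (r : k) : MonoidAlgebra.single g r = r • o g := by
  simp [o, MonoidAlgebra.of_apply]

/-- rotation -/
def ga : G := (finRotate 3, 1)
/-- transposition -/
def gs : G := (Equiv.swap 0 1, 1)
/-- central element of order three -/
def gc : G := (1, Multiplicative.ofAdd 1)

lemma gc_comm (g : G) : gc * g = g * gc := by
  rcases g with ⟨g, z⟩
  simp [gc, mul_comm]

lemma o_gc_comm (x : A) : o gc * x = x * o gc := by
  induction x using MonoidAlgebra.induction_linear with
  | zero => simp
  | add x y hx hy => rw [mul_add, add_mul, hx, hy]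
  | single g r => rw [single_eq, mul_smul_comm, smul_mul_assoc, ← o_mul, ← o_mul, gc_comm]

lemma three_A : (3 : A) = 0 := by
  have : algebraMap k A 3 = 3 := map_ofNat _ 3
  rw [← this, show (3 : k) = 0 from rfl, map_zero]

lemma cube (t : A) (ht : t ^ 3 = 1) : (t - 1) ^ 3 = 0 := by
  have : (t - 1) ^ 3 = (t ^ 3 - 1) - 3 * (t ^ 2 - t) := by noncomm_ring
  rw [this, ht, three_A]; simp

lemma fix_of_cube (t x : A) (h : (t - 1) ^ 3 = 0) (hx : x ≠ 0) :
    ∃ q : ℕ, (t - 1) ^ q * x ≠ 0 ∧ t * ((t - 1) ^ q * x) = (t - 1) ^ q * x := by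
  have key : ∀ y : A, (t - 1) * y = 0 → t * y = y := by
    intro y hy
    rwa [sub_mul, one_mul, sub_eq_zero] at hy
  by_cases h1 : (t - 1) * x = 0
  · exact ⟨0, by simpa using hx, by simpa using key x h1⟩
  by_cases h2 : (t - 1) ^ 2 * x = 0
  · refine ⟨1, by simpa using h1, key _ ?_⟩
    rw [← mul_assoc, ← pow_succ', h2]
  · refine ⟨2, h2, key _ ?_⟩
    rw [← mul_assoc, ← pow_succ', h, zero_mul]

lemma ga_cube : ga ^ 3 = 1 := by decide
lemma gc_cube : gc ^ 3 = 1 := by decide
lemma gs_sq : gs * gs = 1 := by decide
lemma ga_gs : ga * gs = gs * ga ^ 2 := by decide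

lemma o_pow (g : G) (n : ℕ) : o (g ^ n) = o g ^ n := map_pow _ _ _

/-- The sign character. -/
def sg : G →* k :=
  (((Int.castRingHom k : ℤ →* k).comp (Units.coeHom ℤ)).comp Equiv.Perm.sign).comp
    (MonoidHom.fst H C)

/-- The two characters `A → k`: `chi 1` trivial, `chi (-1)` sign. -/
noncomputable def ch (f : G →* k) : A →ₐ[k] k := MonoidAlgebra.lift k k G f

lemma ch_o (f : G →* k) (g : G) : ch f (o g) = f g := by
  simp [ch, o]

/-- identification of `Fin 3` with `F_3` -/
def toK (i : Fin 3) : k := i

/-- two-dimensional upper triangular representation -/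
def rho : G →* Matrix (Fin 2) (Fin 2) k where
  toFun g := !![sg g, toK (g.1 0); 0, 1]
  map_one' := by decide
  map_mul' := by
    have : ∀ g h : H, toK ((g * h) 0) = sg (g, 1) * toK (h 0) + toK (g 0) := by decide
    rintro ⟨g, z⟩ ⟨h, w⟩
    ext i j
    fin_cases i <;> fin_cases j <;> simp [Matrix.mul_apply, Fin.sum_univ_two]
    · exact map_mul sg (g, z) (h, w)
    · exact this g h

/-- extension to the algebra -/
noncomputable def Rho : A →ₐ[k] Matrix (Fin 2) (Fin 2) k :=
  MonoidAlgebra.lift k (Matrix (Fin 2) (Fin 2) k) G rho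

lemma Rho_o (g : G) : Rho (o g) = rho g := by simp [Rho, o]

lemma Rho_00 (x : A) : Rho x 0 0 = ch sg x := by
  induction x using MonoidAlgebra.induction_linear with
  | zero => simp
  | add x y hx hy => simp [hx, hy]
  | single g r => rw [single_eq, map_smul, map_smul, Rho_o, ch_o]; simp [rho]

lemma Rho_11 (x : A) : Rho x 1 1 = ch 1 x := by
  induction x using MonoidAlgebra.induction_linear with
  | zero => simp
  | add x y hx hy => simp [hx, hy]
  | single g r => rw [single_eq, map_smul, map_smul, Rho_o, ch_o]; simp [rho]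

lemma central_ch (e : A) (he : ∀ b : A, e * b = b * e) : ch sg e = ch 1 e := by
  have h := congrArg (fun x => Rho x 0 1) (he (o ga))
  have ga0 : rho ga = !![1, 1; 0, 1] := by decide
  simp only [map_mul, Rho_o, ga0, Matrix.mul_apply, Fin.sum_univ_two, Rho_00, Rho_11] at h
  simp at h
  linear_combination h

lemma gen : ∀ g : G, ∃ i j : Fin 3, ∃ l : Fin 2, g = ga ^ (i : ℕ) * gs ^ (l : ℕ) * gc ^ (j : ℕ) := by
  decide

lemma act_of (f : G →* k) (w : A) (h1 : o ga * w = w) (h2 : o gc * w = w)
    (h3 : o gs * w = f gs • w) (h4 : f ga = 1) (h5 : f gc = 1) (x : A) : x * w = ch f x • w := by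
  induction x using MonoidAlgebra.induction_linear with
  | zero => simp
  | add x y hx hy => rw [add_mul, hx, hy, map_add, add_smul]
  | single g r =>
    rw [single_eq, map_smul, ch_o, smul_mul_assoc, smul_assoc]
    congr 1
    obtain ⟨i, j, l, rfl⟩ := gen g
    have p1 : ∀ n : ℕ, o ga ^ n * w = w := by
      intro n; induction n with
      | zero => simp
      | succ n ih => rw [pow_succ, mul_assoc, h1, ih]
    have p2 : ∀ n : ℕ, o gc ^ n * w = w := by
      intro n; induction n with
      | zero => simp
      | succ n ih => rw [pow_succ, mul_assoc, h2, ih]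
    have p3 : ∀ n : ℕ, o gs ^ n * w = (f gs) ^ n • w := by
      intro n; induction n with
      | zero => simp
      | succ n ih => rw [pow_succ', mul_assoc, ih, mul_smul_comm, h3, smul_smul, pow_succ]
    rw [o_mul, o_mul, o_pow, o_pow, o_pow, mul_assoc, mul_assoc, p2, p3, mul_smul_comm, p1]
    simp [h4, h5]

lemma connected (e : A) (hee : e * e = e) (he : ∀ b : A, e * b = b * e) : e = 0 ∨ e = 1 := by
  -- first: if both characters kill `e` then `e = 0`
  have key : ∀ e : A, e * e = e → (∀ b : A, e * b = b * e) → ch 1 e = 0 → e = 0 := by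
    intro e hee he h0
    by_contra hne
    obtain ⟨q, hq0, hq⟩ := fix_of_cube (o ga) e (cube _ (by rw [← o_pow, ga_cube, o_one])) hne
    obtain ⟨q', hq0', hq'⟩ := fix_of_cube (o gc) _ (cube _ (by rw [← o_pow, gc_cube, o_one])) hq0
    set y := (o gc - 1) ^ q' * ((o ga - 1) ^ q * e) with hy
    have hcomm : Commute (o gc - 1) (o ga) := by
      have := o_gc_comm (o ga)
      simp only [Commute, SemiconjBy]
      rw [sub_mul, mul_sub, this, one_mul, mul_one]
    have hya : o ga * y = y := by
      rw [hy, ← mul_assoc, ← (hcomm.pow_left q').eq, mul_assoc, hq]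
    have hyc : o gc * y = y := hq'
    have hye : e * y = y := by
      rw [hy, ← mul_assoc, he, mul_assoc]
      rw [← mul_assoc e, he, mul_assoc, hee]
    have hcs := central_ch e he
    have h2 : o gs * (o gs * y) = y := by
      rw [← mul_assoc, ← o_mul, gs_sq, o_one, one_mul]
    have h3 : o ga * (o gs * y) = o gs * y := by
      rw [← mul_assoc, ← o_mul, ga_gs, o_mul, o_pow, pow_two, mul_assoc, mul_assoc, hya, hya]
    have h4 : o gc * (o gs * y) = o gs * y := by
      rw [← mul_assoc, o_gc_comm, mul_assoc, hyc]
    have h5 : e * (o gs * y) = o gs * y := by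
      rw [← mul_assoc, he, mul_assoc, hye]
    by_cases hw : y + o gs * y = 0
    · have hm : o gs * y = (sg gs) • y := by
        have : sg gs = -1 := by decide
        rw [this, neg_one_smul]
        exact eq_neg_of_add_eq_zero_right hw
      have := act_of sg y hya hyc hm (by decide) (by decide) e
      rw [hcs, h0, zero_smul, hye] at this
      exact hq0' this
    · have := act_of 1 (y + o gs * y) (by rw [mul_add, hya, h3]) (by rw [mul_add, hyc, h4])
        (by rw [mul_add, h2]; simp [add_comm]) (by simp) (by simp) e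
      rw [h0, zero_smul, mul_add, hye, h5] at this
      exact hw this
  have h1 : ch 1 e = 0 ∨ ch 1 e = 1 := by
    have := congrArg (ch 1) hee
    rw [map_mul] at this
    have h : ∀ z : k, z * z = z → z = 0 ∨ z = 1 := by decide
    exact h _ this
  rcases h1 with h1 | h1
  · exact Or.inl (key e hee he h1)
  · right
    have := key (1 - e) (by rw [sub_mul, mul_sub, mul_sub, hee]; simp)
      (by intro b; rw [sub_mul, mul_sub, he]; simp) (by rw [map_sub, h1]; simp)
    exact (sub_eq_zero.1 this).symm

theorem isBlock : IsBlock k G A :=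
  ⟨inferInstance, connected, PUnit, inferInstance, inferInstance,
    ⟨{ toFun := fun x => (x, PUnit.unit)
       invFun := fun x => x.1
       left_inv := fun _ => rfl
       right_inv := fun _ => rfl
       map_mul' := fun _ _ => rfl
       map_add' := fun _ _ => rfl
       commutes' := fun _ => rfl }⟩⟩

/-- The additive character `(h, c^i) ↦ i`. -/
def lam (g : G) : k := Multiplicative.toAdd g.2

/-- the matrix form of the derivation `g ↦ lam(g) g` of the group algebra -/
noncomputable def DD : G →* Matrix (Fin 2) (Fin 2) A where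
  toFun g := !![o g, lam g • o g; 0, o g]
  map_one' := by
    ext i j
    fin_cases i <;> fin_cases j <;> simp [lam, o_one]
  map_mul' := by
    intro g h
    ext i j
    fin_cases i <;> fin_cases j <;>
      simp [Matrix.mul_apply, Fin.sum_univ_two, o_mul, lam, add_smul, add_comm]

/-- extension to the group algebra -/
noncomputable def D : A →ₐ[k] Matrix (Fin 2) (Fin 2) A :=
  MonoidAlgebra.lift k (Matrix (Fin 2) (Fin 2) A) G DD

lemma D_o (g : G) : D (o g) = DD g := by simp [D, o]

lemma D_00 (x : A) : D x 0 0 = x := by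
  induction x using MonoidAlgebra.induction_linear with
  | zero => simp
  | add x y hx hy => simp [hx, hy]
  | single g r => rw [single_eq, map_smul, D_o]; simp [DD]

lemma D_11 (x : A) : D x 1 1 = x := by
  induction x using MonoidAlgebra.induction_linear with
  | zero => simp
  | add x y hx hy => simp [hx, hy]
  | single g r => rw [single_eq, map_smul, D_o]; simp [DD]

lemma D_mul (x y : A) : D (x * y) 0 1 = x * D y 0 1 + D x 0 1 * y := by
  rw [map_mul, Matrix.mul_apply, Fin.sum_univ_two, D_00, D_11]

lemma gc_acts (S : Type) [AddCommGroup S] [Module A S] [IsSimpleModule A S] (x : S) :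
    (o gc - 1) • x = 0 := by
  let f : S →ₗ[A] S :=
    { toFun := fun x => (o gc - 1) • x
      map_add' := fun x y => smul_add _ _ _
      map_smul' := by
        intro r x
        simp only [RingHom.id_apply, ← mul_smul, sub_mul, mul_sub, o_gc_comm, one_mul, mul_one] }
  rcases LinearMap.bijective_or_eq_zero f with h | h
  · exfalso
    have h3 : ∀ x, f (f (f x)) = 0 := by
      intro x
      change (o gc - 1) • (o gc - 1) • (o gc - 1) • x = 0
      rw [← mul_smul, ← mul_smul, ← pow_two, ← pow_succ,
        cube (o gc) (by rw [← o_pow, gc_cube, o_one]), zero_smul]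
    have hn := IsSimpleModule.nontrivial A S
    obtain ⟨y, hy⟩ := exists_ne (0 : S)
    have h0 := h3 y
    have e1 := h.1 (a₁ := f (f y)) (a₂ := 0) (by rw [h0, map_zero])
    have e2 := h.1 (a₁ := f y) (a₂ := 0) (by rw [e1, map_zero])
    exact hy (h.1 (a₁ := y) (a₂ := 0) (by rw [e2, map_zero]))
  · exact LinearMap.congr_fun h x

theorem ext_simple (S : Type) [AddCommGroup S] [Module A S] [IsSimpleModule A S] :
    Nontrivial (Ext (ModuleCat.of A S) (ModuleCat.of A S) 1) := by
  by_contra hcon
  rw [not_nontrivial_iff_subsingleton] at hcon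
  have hn := IsSimpleModule.nontrivial A S
  obtain ⟨s0, hs0⟩ := exists_ne (0 : S)
  let g : A →ₗ[A] S := LinearMap.toSpanSingleton A S s0
  have hg : Function.Surjective g := IsSimpleModule.toSpanSingleton_surjective A hs0
  let K := LinearMap.ker g
  let φ : K →ₗ[A] S :=
    { toFun := fun x => D (x : A) 0 1 • s0
      map_add' := by
        intro x y
        simp [add_smul]
      map_smul' := by
        rintro r ⟨x, hx⟩
        have hx' : x • s0 = 0 := hx
        simp only [SetLike.mk_smul_mk, smul_eq_mul, RingHom.id_apply]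
        rw [D_mul, add_smul, mul_smul, mul_smul, hx', smul_zero, add_zero] }
  obtain ⟨ψ, hψ⟩ := Pool.Agent.X277.extend_of_subsingleton_ext_one K.subtype g
    (Submodule.injective_subtype K) hg
    (by intro x; constructor
        · intro hx; exact ⟨⟨x, hx⟩, rfl⟩
        · rintro ⟨y, rfl⟩; exact y.2) hcon φ
  have hmem : (o gc - 1) ∈ K := gc_acts S s0
  have h1 := LinearMap.congr_fun hψ ⟨o gc - 1, hmem⟩
  have h2 : ψ (o gc - 1) = 0 := by
    have : (o gc - 1 : A) = (o gc - 1) • (1 : A) := by simp
    rw [this, map_smul, gc_acts]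
  have h3 : φ ⟨o gc - 1, hmem⟩ = s0 := by
    change D (o gc - 1) 0 1 • s0 = s0
    rw [map_sub, D_o, map_one]
    have : (DD gc - 1) 0 1 = o gc := by
      simp [DD, lam, gc]
    rw [this]
    have := gc_acts S s0
    rw [sub_smul, one_smul, sub_eq_zero] at this
    exact this
  rw [h3] at h1
  exact hs0 (h1.symm.trans h2)

/-! ### The permutation module `k[G/S_3]` -/

/-- The projection `kG → k[C_3]`. -/
noncomputable def pr : A →+* MonoidAlgebra k C :=
  MonoidAlgebra.mapDomainRingHom k (MonoidHom.snd H C)

/-- The permutation module `k[G/S_3]`, on the underlying group `k[C_3]`. -/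
def PM : Type := MonoidAlgebra k C

noncomputable instance : AddCommGroup PM := inferInstanceAs (AddCommGroup (MonoidAlgebra k C))

noncomputable instance : Module A PM := Module.compHom (MonoidAlgebra k C) pr

lemma PM_smul (x : A) (m : MonoidAlgebra k C) :
    x • (show PM from m) = (show PM from (pr x * m : MonoidAlgebra k C)) := rfl

lemma pr_o (g : G) : pr (o g) = MonoidAlgebra.of k C g.2 := by
  simp [pr, o, MonoidAlgebra.of_apply]

/-- elements `(h,1)` act trivially -/
lemma h_acts (h : H) (m : PM) : o (h, 1) • m = m := by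
  refine (PM_smul (o (h, 1)) m).trans ?_
  rw [pr_o]
  exact one_mul (show MonoidAlgebra k C from m)

/-- the generator of the permutation module -/
noncomputable def pm1 : PM := (1 : MonoidAlgebra k C)

lemma smul_pm1 (x : A) : x • pm1 = (show PM from pr x) := by
  refine (PM_smul x 1).trans ?_
  rw [mul_one]

/-- the section `k[C_3] → kG` of `pr` -/
noncomputable def io : MonoidAlgebra k C →+* A :=
  MonoidAlgebra.mapDomainRingHom k (MonoidHom.inr H C)

/-- The left ideal generated by `h - 1`, `h ∈ S_3`. -/
noncomputable def L : Submodule A A := Submodule.span A (Set.range fun h : H => o (h, 1) - 1)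

lemma sub_io_mem (x : A) : x - io (pr x) ∈ L := by
  induction x using MonoidAlgebra.induction_linear with
  | zero => simp
  | add x y hx hy =>
    have : x + y - io (pr (x + y)) = (x - io (pr x)) + (y - io (pr y)) := by
      rw [map_add, map_add]; abel
    rw [this]; exact add_mem hx hy
  | single g r =>
    have : MonoidAlgebra.single g r - io (pr (MonoidAlgebra.single g r))
        = (r • o ((1 : H), g.2)) • (o (g.1, 1) - 1) := by
      have e : io (pr (MonoidAlgebra.single g r)) = r • o ((1 : H), g.2) := by
        simp [io, pr, o, MonoidAlgebra.of_apply]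
      rw [e, single_eq, smul_eq_mul, mul_sub, smul_mul_assoc, ← o_mul, mul_one]
      simp
    rw [this]
    exact Submodule.smul_mem _ _ (Submodule.subset_span ⟨g.1, rfl⟩)

/-- the projection `kG → M` -/
noncomputable def prM : A →ₗ[A] PM := LinearMap.toSpanSingleton A PM pm1

lemma prM_apply (x : A) : prM x = (show PM from pr x) := smul_pm1 x

lemma prM_surj : Function.Surjective prM := by
  intro m
  refine ⟨io m, ?_⟩
  rw [prM_apply]
  have : pr.comp io = RingHom.id _ := by
    simp only [pr, io]
    rw [← MonoidAlgebra.mapDomainRingHom_comp]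
    ext <;> simp
  exact RingHom.congr_fun this m

lemma ker_le_L : LinearMap.ker prM ≤ L := by
  intro x hx
  have h0 : pr x = 0 := (prM_apply x).symm.trans hx
  have := sub_io_mem x
  rwa [h0, map_zero, sub_zero] at this

lemma three_PM (m : PM) : m + m + m = 0 := by
  have : m + m + m = (3 : A) • m := by
    rw [show (3 : A) = 1 + 1 + 1 by norm_num, add_smul, add_smul, one_smul]
  rw [this, three_A, zero_smul]

lemma two_invol : ∀ h : H, ∃ u v : H, u * u = 1 ∧ v * v = 1 ∧ h = u * v := by decide

lemma hom_ker_zero (φ : LinearMap.ker prM →ₗ[A] PM) : φ = 0 := by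
  have hmem : ∀ h : H, o (h, 1) - 1 ∈ LinearMap.ker prM := by
    intro h
    rw [LinearMap.mem_ker]
    change (o (h, 1) - 1) • pm1 = 0
    rw [sub_smul, h_acts, one_smul, sub_self]
  let ψ : H → PM := fun h => φ ⟨o (h, 1) - 1, hmem h⟩
  have hψ : ∀ u v, ψ (u * v) = ψ u + ψ v := by
    intro u v
    have : (⟨o (u * v, 1) - 1, hmem (u * v)⟩ : LinearMap.ker prM)
        = ⟨o (u, 1) - 1, hmem u⟩ + o (u, 1) • ⟨o (v, 1) - 1, hmem v⟩ := by
      apply Subtype.ext
      have : o (u * v, (1 : C)) = o (u, 1) * o (v, 1) := by
        rw [← o_mul]; simp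
      simp [this, mul_sub]
    change φ _ = _
    rw [this, map_add, map_smul, h_acts]
  have hinv : ∀ u : H, u * u = 1 → ψ u = 0 := by
    intro u hu
    have h1 : ψ 1 = 0 := by
      have := hψ 1 1
      rw [mul_one] at this
      exact left_eq_add.1 this
    have h2 := hψ u u
    rw [hu, h1] at h2
    have h3 := three_PM (ψ u)
    rw [← h2, zero_add] at h3
    exact h3
  have hzero : ∀ h, ψ h = 0 := by
    intro h
    obtain ⟨u, v, hu, hv, rfl⟩ := two_invol h
    rw [hψ, hinv u hu, hinv v hv, add_zero]
  have hL : L ≤ (LinearMap.ker φ).map (LinearMap.ker prM).subtype := by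
    rw [L, Submodule.span_le]
    rintro _ ⟨h, rfl⟩
    exact ⟨⟨_, hmem h⟩, hzero h, rfl⟩
  ext x
  obtain ⟨y, hy, hyx⟩ := hL (ker_le_L x.2)
  have : y = x := Subtype.ext hyx
  rw [← this]
  exact hy

theorem ext_PM : Subsingleton (Ext (ModuleCat.of A PM) (ModuleCat.of A PM) 1) := by
  refine Pool.Agent.X277.subsingleton_ext_one_of_extend (LinearMap.ker prM).subtype prM
    (Submodule.injective_subtype _) prM_surj
    (by intro x; constructor
        · intro hx; exact ⟨⟨x, hx⟩, rfl⟩
        · rintro ⟨y, rfl⟩; exact y.2) ?_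
  intro φ
  exact ⟨0, by rw [hom_ker_zero φ]; rfl⟩

/-- the sum of the coefficients over `S_3 × 1` -/
noncomputable def T (x : A) : k := ∑ h : H, x.coeff (h, 1)

lemma T_eq (x : A) : T x = (pr x).coeff 1 := by
  induction x using MonoidAlgebra.induction_linear with
  | zero => simp [T]
  | add x y hx hy =>
    rw [map_add, MonoidAlgebra.coeff_add, Finsupp.add_apply, ← hx, ← hy]
    simp [T, Finset.sum_add_distrib]
  | single g r =>
    rcases g with ⟨g, z⟩
    have e1 : pr (MonoidAlgebra.single (g, z) r) = MonoidAlgebra.single z r := by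
      simp [pr]
    rw [e1]
    simp only [T, MonoidAlgebra.coeff_single, Finsupp.single_apply, Prod.mk.injEq]
    by_cases hz : z = 1
    · simp [hz]
    · simp [hz]

theorem not_projective : ¬ Module.Projective A PM := by
  intro hP
  obtain ⟨s, hs⟩ := Module.projective_lifting_property prM (LinearMap.id (R := A) (M := PM))
    prM_surj
  set u : A := s pm1 with hu
  have hinv : ∀ h : H, o (h, 1) * u = u := by
    intro h
    have : o (h, 1) • u = u := by rw [hu, ← map_smul, h_acts]
    exact this
  have h1 : prM u = pm1 := LinearMap.congr_fun hs pm1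
  have h2 : pr u = 1 := (prM_apply u).symm.trans h1
  have h3 : T u = 1 := by
    rw [T_eq, h2]
    simp [MonoidAlgebra.one_def]
  have h4 : ∀ h : H, u.coeff (h, 1) = u.coeff (1, 1) := by
    intro h
    have := congrArg (fun z : A => z.coeff (h, 1)) (hinv h)
    simp only [o, MonoidAlgebra.of_apply, MonoidAlgebra.coeff_single_mul_apply, one_mul] at this
    rw [← this]
    congr 1
    simp
  have h5 : T u = 0 := by
    simp only [T, h4, Finset.sum_const, Finset.card_univ]
    have : Fintype.card H = 6 := by decide
    rw [this]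
    have : ∀ z : k, 6 • z = 0 := by decide
    exact this _
  rw [h3] at h5
  exact one_ne_zero h5

theorem not_semisimple : ¬ IsSemisimpleRing A := by
  intro h
  exact not_projective (Module.projective_of_isSemisimpleRing A PM)

theorem phi_simple (S : Type) [AddCommGroup S] [Module A S] [IsSimpleModule A S] :
    phi A S ≤ 1 :=
  iInf_le_of_le ⟨1, le_rfl, ext_simple S⟩ (by simp)

theorem phi_PM : 2 ≤ phi A PM := by
  refine le_iInf ?_
  rintro ⟨r, h1, h2⟩
  have : r ≠ 1 := by
    rintro rfl
    exact not_subsingleton_iff_nontrivial.2 h2 ext_PM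
  have : 2 ≤ r := by omega
  exact_mod_cast this

/-- **Main theorem.** There are a field `k` (namely `F_3`), a finite group `G` (namely
`S_3 × C_3`), a nonsemisimple block `B` of `kG` and a finite-dimensional nonprojective
`B`-module `M` such that `φ_M > φ_S` for every simple `B`-module `S`. -/
theorem result : ∃ (k : Type) (_ : Field k) (G : Type) (_ : Group G) (_ : Finite G)
    (B : Type) (_ : Ring B) (_ : Algebra k B), IsBlock k G B ∧ ¬ IsSemisimpleRing B ∧
    ∃ (M : Type) (_ : AddCommGroup M) (_ : Module B M),
      Module.Finite B M ∧ ¬ Module.Projective B M ∧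
      ∀ (S : Type) [AddCommGroup S] [Module B S], IsSimpleModule B S → phi B S < phi B M := by
  refine ⟨k, inferInstance, G, inferInstance, inferInstance, A, inferInstance, inferInstance,
    isBlock, not_semisimple, PM, inferInstance, inferInstance, ?_, not_projective, ?_⟩
  · exact Module.Finite.of_surjective prM prM_surj
  · intro S _ _ hS
    refine lt_of_le_of_lt (phi_simple S) (lt_of_lt_of_le ?_ phi_PM)
    exact_mod_cast one_lt_two

end Pool.Agent.Results.MP_f9a7a1_al.DeltaNotMax
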